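import Pool.Agent.Lib.MP_5cc0c1_al.Main

/-!
# Abelian-section and representation-growth bounds do not imply expansion
-/

open Filter
open Pool.Agent.Lib.MP_5cc0c1_al

namespace Pool.Agent.Results.MP_5cc0c1_al.NotExpanding

/-- There is a sequence of finite groups `G_n`, each generated by two elements, with
`|G_n| → ∞`, which satisfies (A) and (R), and no subsequence of which is an expanding sequence. -/
theorem result : ∃ (G : ℕ → Type) (_ : ∀ n, Group (G n)),
    (∀ n, Finite (G n)) ∧ Tendsto (fun n => Nat.card (G n)) atTop atTop ∧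
    (∀ n, ∃ x y : G n, Subgroup.closure {x, y} = ⊤) ∧ CondA G ∧ CondR G ∧
    ∀ φ : ℕ → ℕ, StrictMono φ → ¬ IsExpanding (fun n => G (φ n)) :=
  main

end Pool.Agent.Results.MP_5cc0c1_al.NotExpanding
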